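import Pool.Agent.W677.Summand3

set_option autoImplicit false

/-!
# MP_eba1ef_gt: convex bodies with a lower-dimensional Minkowski summand

For a compact convex set `X` let `c(X)` be the least number of translates of the relative interior
of `X` that cover `X`. Let `K = A + B` be a convex body in `ℝ^n`, `A` compact and convex of
dimension `k`, and let `Q` be the image of `K` under a linear map onto `ℝ^(n-k)` with kernel the
linear span of `A - A`. It is proved:

1. `c(K) ≤ c(A) c(Q)`. (The special case that `B` lies in a complement of the span is the bound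
   for direct sums.)
2. If `k ≥ n - 2` and `c(A) ≤ 2 ^ k` then `c(K) ≤ 2 ^ n`, as conjectured; for example if `A` is a
   parallelotope of dimension at least `n - 2`.
3. If `n - 2 ≤ k ≤ 2` then `c(K) ≤ 2 ^ n`. So a convex body in `ℝ³` with a summand of
   dimension 1 or 2, and a convex body in `ℝ⁴` with a summand of dimension 2, satisfies the
   conjecture.
4. If the conjecture is true in all dimensions smaller than `n` and `K` is a counterexample, then
   `A` has dimension `0` or `n`: a counterexample of least dimension has no Minkowski summand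
   of a dimension strictly between `0` and `n`.

The proof. Let `W` be a set of directions illuminating `A` in its span, and let `V` illuminate `Q`.
From each point of `A` one can move by a fixed multiple of some `w ∈ W` in the span, and then still
in all directions of the span by a fixed amount (compactness). Let `X` be a point of `K`. A
direction `v ∈ V` leads from the image of `X` by a fixed amount into the interior of `Q`; let `Y` be
an interior point of `K` over it. The difference of `Y - X` and a multiple of a lift of `v` is a
bounded vector `z` of the span, and it is compensated by a large multiple of `w`, since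
`R w - z` points from `X` into `K` (the summand `A` of `K` is the same at all points). So the
directions `s v + R w` illuminate `K`. In dimensions `1` and `2` the bound `2 ^ d` follows from the
bound for bodies with a parallelotope as a shadow.
-/

namespace Pool.Agent.Results.MP_eba1ef_gt.LowerDimensionalSummand

open scoped Pointwise
open Pool.Agent.W677.Summand

/-- The Euclidean space `ℝ^d`. -/
abbrev Eu (d : ℕ) : Type := EuclideanSpace ℝ (Fin d)

/-- `K` is a convex body: convex, compact, with nonempty interior. -/
def IsConvexBody {d : ℕ} (K : Set (Eu d)) : Prop :=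
  Convex ℝ K ∧ IsCompact K ∧ (interior K).Nonempty

/-- `K` is covered by at most `N` translates of its interior. -/
def CoveredBy {d : ℕ} (K : Set (Eu d)) (N : ℕ) : Prop :=
  ∃ T : Finset (Eu d), T.card ≤ N ∧ K ⊆ ⋃ t ∈ T, (fun x => t + x) '' interior K

/-- `A` is covered by at most `N` translates of its relative interior. -/
def RelCoveredBy {d : ℕ} (A : Set (Eu d)) (N : ℕ) : Prop :=
  ∃ T : Finset (Eu d), T.card ≤ N ∧ A ⊆ ⋃ t ∈ T, (fun x => t + x) '' intrinsicInterior ℝ A

/-- The dimension of (the affine hull of) `A`. -/
noncomputable def dim {d : ℕ} (A : Set (Eu d)) : ℕ := Module.finrank ℝ (vectorSpan ℝ A)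

/-- `π` is linear and onto, and its kernel is the linear span of `A - A`. -/
def IsQuotientMap {d m : ℕ} (A : Set (Eu d)) (π : Eu d → Eu m) : Prop :=
  IsLinearMap ℝ π ∧ Function.Surjective π ∧ ∀ x, π x = 0 ↔ x ∈ vectorSpan ℝ A

/-- images of convex bodies -/
theorem body_image {n m : ℕ} {K : Set (Eu n)} (hK : IsConvexBody K) (π : Eu n →L[ℝ] Eu m)
    (hπ : Function.Surjective π) : IsConvexBody (π '' K) := by
  obtain ⟨h1, h2, h3⟩ := hK
  refine ⟨h1.linear_image π.toLinearMap, h2.image π.continuous, ?_⟩
  have h4 : π '' (interior K) ⊆ interior (π '' K) :=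
    interior_maximal (Set.image_mono interior_subset)
      (ContinuousLinearMap.isOpenMap _ hπ _ isOpen_interior)
  exact (h3.image π).mono h4

/-- **Main theorem.** Let `K = A + B` be a convex body in `ℝ^n`, with `A` compact and convex.
1. If `π` is a linear map onto `ℝ^m` with kernel the linear span of `A - A`, `A` is covered by `N`
translates of its relative interior and `π K` by `M` translates of its interior, then `K` is covered
by `N M` translates of its interior.
2. If `dim A ≥ n - 2` and `A` is covered by `2 ^ dim A` translates of its relative interior, then `K`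
is covered by `2 ^ n` translates of its interior.
3. If `n - 2 ≤ dim A ≤ 2`, then `K` is covered by `2 ^ n` translates of its interior.
4. If in all dimensions `d < n` every convex body is covered by `2 ^ d` translates of its interior,
and `K` is not covered by `2 ^ n` translates of its interior, then `dim A` is `0` or `n`. -/
theorem result (n : ℕ) (K A B : Set (Eu n)) (hK : IsConvexBody K) (hA : Convex ℝ A)
    (hAc : IsCompact A) (hsum : K = A + B) :
    (∀ (m : ℕ) (π : Eu n → Eu m) (N M : ℕ), IsQuotientMap A π → RelCoveredBy A N →
      CoveredBy (π '' K) M → CoveredBy K (N * M)) ∧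
    (n ≤ dim A + 2 → RelCoveredBy A (2 ^ dim A) → CoveredBy K (2 ^ n)) ∧
    (n ≤ dim A + 2 → dim A ≤ 2 → CoveredBy K (2 ^ n)) ∧
    ((∀ d < n, ∀ K' : Set (Eu d), IsConvexBody K' → CoveredBy K' (2 ^ d)) →
      ¬ CoveredBy K (2 ^ n) → dim A = 0 ∨ dim A = n) := by
  obtain ⟨a₀, ha₀⟩ : A.Nonempty := by
    obtain ⟨x, hx⟩ := hK.2.2
    have h1 := interior_subset hx
    rw [hsum] at h1
    obtain ⟨a, ha, _⟩ := Set.mem_add.1 h1
    exact ⟨a, ha⟩
  obtain ⟨ι, hι⟩ := coords (vectorSpan ℝ A) (k := dim A) rfl
  have key : ∀ (m : ℕ) (π : Eu n →L[ℝ] Eu m) (N M : ℕ), Function.Surjective π →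
      (∀ x, π x = 0 ↔ x ∈ vectorSpan ℝ A) → Cov (Lset ι A a₀) N → Cov (π '' K) M →
      Cov K (N * M) := by
    intro m π N M hπ hker hN hM
    exact bound' hι ha₀ hA hAc hK.1 hK.2.1 hK.2.2 hsum π (Function.surjInv hπ)
      (Function.surjInv_eq hπ) (fun y hy => (hker y).1 hy) N M hN hM
  have hL : IsConvexBody (Lset ι A a₀) :=
    ⟨Lset_convex hA, Lset_compact (fun x hx => (hι x).1 hx) ha₀ hAc, Lset_int hι ha₀ hA⟩
  have hdn : dim A ≤ n := by
    have := Submodule.finrank_le (vectorSpan ℝ A)
    rwa [finrank_euclideanSpace, Fintype.card_fin] at this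
  obtain ⟨m, hm⟩ : ∃ m, dim A + m = n := ⟨n - dim A, by omega⟩
  obtain ⟨p, hp, hker⟩ := quot (vectorSpan ℝ A) (m := m) hm
  have hQ := body_image hK p hp
  have key2 : Cov (Lset ι A a₀) (2 ^ dim A) → Cov (p '' K) (2 ^ m) → Cov K (2 ^ n) := by
    intro h1 h2
    have h3 := key m p _ _ hp hker h1 h2
    rwa [← pow_add, hm] at h3
  refine ⟨?_, ?_, ?_, ?_⟩
  · intro m π N M hπ hN hM
    obtain ⟨hlin, hsurj, hk⟩ := hπ
    exact key m (LinearMap.toContinuousLinearMap (hlin.mk' π)) N M hsurj hk
      (cov_of_rel hι ha₀ hN) hM
  · intro h1 h2
    exact key2 (cov_of_rel hι ha₀ h2) (body_le_two (by omega) hQ)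
  · intro h1 h2
    exact key2 (body_le_two h2 hL) (body_le_two (by omega) hQ)
  · intro h1 h2
    by_contra hcon
    push Not at hcon
    exact h2 (key2 (h1 _ (by omega) _ hL) (h1 _ (by omega) _ hQ))

end Pool.Agent.Results.MP_eba1ef_gt.LowerDimensionalSummand
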