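import Pool.Agent.W396.Il.Low

set_option autoImplicit false

/-!
# MP_eba1ef_gt: convex bodies with an irreducible group of reflection symmetries

Let `K` be a convex body in `ℝ^n`, symmetric about the hyperplanes `α^⊥`, `α ∈ Φ`, where `Φ` is a
set (finite or infinite) of nonzero vectors which spans `ℝ^n` and does not split into two nonempty
parts orthogonal to each other. In other words, the symmetry group of `K` contains reflections which
generate an irreducible group. Then `K` is covered by `2 ^ n` translates of its interior, as
conjectured by Levi, Hadwiger, Gohberg and Markus. No central symmetry is assumed.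

The proof. Let `R` be the closed set of all unit vectors `r` such that `K` is symmetric about
`r^⊥`. It is stable under its own reflections. If it is infinite, it contains the unit sphere of
a plane, and then, by irreducibility, of the whole space. If it is finite, then it is an
irreducible root system (not necessarily crystallographic); it has a simple system, and the
classification of the connected Coxeter graphs with positive definite form is proved. For `n ≥ 4`
it is then enough to treat the reflection groups of type `A_n`, `D_n` and `E_6`, because each one of
the other groups contains one of those: `B_n ⊇ D_n`, `F_4 ⊇ D_4`, `H_4 ⊇ D_4`, `E_7 ⊇ A_7`,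
`E_8 ⊇ A_8`, and the full orthogonal group contains `D_n`.

If `u` is an outer normal of `K` at `x`, then `⟪α, x⟫ ⟪α, u⟫ ≥ 0` for all roots `α`.

* Type `A_n`, the symmetries of a simplex: `x` in `ℝ^(n+1)` with coordinate sum `0`. For a subset
  `C` of the first `n` coordinates all points `x` such that the coordinates in `C` are greater
  (smaller) than the other ones among the first `n`, are illuminated by one direction, which is
  constant on `C` and on its complement and has an additional component for the last coordinate
  which depends on `K`.
* Type `D_n`: permutations and even changes of signs of the coordinates. For every sign vector `s`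
  there is one direction with signs `s` and weights, a majority game for the sets of the large
  coordinates of `x`. One type of game is used for the sign vectors of one parity, another one for
  the other parity, depending on `K`: for which parity is the largest multiple of `s` in `K` larger.
* Type `E_6`: there are `64` directions (found with a computer) which illuminate the boundary of
  every convex body with this symmetry. The proof uses certificates checked by the kernel.

Dimension three is a special case of the theorem on rotations of order at least three in
`Pool.Agent.W867.Cov3`, and dimension two a special case of the theorem on shadows in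
`Pool.Agent.W677.Shadow3`.
-/

namespace Pool.Agent.Results.MP_eba1ef_gt.ReflectionSymmetric

/-- `Φ` is not the union of two nonempty disjoint sets which are orthogonal to each other: for every
nonempty proper subset `A` of `Φ`, some element of `A` is not orthogonal to some element of
`Φ \ A`. -/
def Irreducible {n : ℕ} (Φ : Set (EuclideanSpace ℝ (Fin n))) : Prop :=
  ∀ A ⊆ Φ, A.Nonempty → A ≠ Φ → ∃ α ∈ A, ∃ β ∈ Φ, β ∉ A ∧ inner ℝ α β ≠ 0

/-- `K` is symmetric about the hyperplane `α^⊥`: the reflection in this hyperplane maps `K` into
itself. -/
def SymmetricAbout {n : ℕ} (K : Set (EuclideanSpace ℝ (Fin n))) (α : EuclideanSpace ℝ (Fin n)) :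
    Prop :=
  ∀ x ∈ K, (Submodule.span ℝ {α})ᗮ.reflection x ∈ K

/-- **Main theorem.** A convex body in `ℝ^n`, symmetric about the hyperplanes `α^⊥`, `α ∈ Φ`, where
`Φ` is an irreducible set of nonzero vectors which spans `ℝ^n`, is covered by at most `2 ^ n`
translates of its interior. -/
theorem result (n : ℕ) (K : Set (EuclideanSpace ℝ (Fin n)))
    (hK : Convex ℝ K) (hKc : IsCompact K) (hKi : (interior K).Nonempty)
    (Φ : Set (EuclideanSpace ℝ (Fin n))) (h0 : ∀ α ∈ Φ, α ≠ 0)
    (hspan : Submodule.span ℝ Φ = ⊤) (hirr : Irreducible Φ) (hΦ : ∀ α ∈ Φ, SymmetricAbout K α) :
    ∃ T : Finset (EuclideanSpace ℝ (Fin n)), T.card ≤ 2 ^ n ∧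
      K ⊆ ⋃ t ∈ T, (fun x => t + x) '' interior K := by
  have h := Pool.Agent.W396.Il.cov_irr_all (K := K) Φ h0 hspan hirr hK hKc hKi hΦ
  rwa [finrank_euclideanSpace, Fintype.card_fin] at h

end Pool.Agent.Results.MP_eba1ef_gt.ReflectionSymmetric
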