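import Pool.Agent.W867.Cov3.Sym2

set_option autoImplicit false

namespace Pool.Agent.Results.MP_eba1ef_gt.RotationOrderThree

/-- three-dimensional Euclidean space -/
abbrev E3 : Type := EuclideanSpace ℝ (Fin 3)

/-- the affine self-map `x ↦ M x + b` of `ℝ³` -/
noncomputable def aff (M : Matrix (Fin 3) (Fin 3) ℝ) (b x : E3) : E3 :=
  WithLp.toLp 2 (M.mulVec (WithLp.ofLp x)) + b

/-- Let `K` be a convex body in `ℝ³` with an affine symmetry `g x = M x + b` (so `g K = K`) such
that `g` preserves the orientation and `g² ≠ id`, or `g⁴ ≠ id`. Then `K` is covered by at most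
eight translates of its interior. -/
theorem result (K : Set E3) (hK : Convex ℝ K) (hc : IsCompact K) (hint : (interior K).Nonempty)
    (M : Matrix (Fin 3) (Fin 3) ℝ) (b : E3) (hg : aff M b '' K = K)
    (h : (0 < M.det ∧ ∃ x, aff M b (aff M b x) ≠ x) ∨
      ∃ x, aff M b (aff M b (aff M b (aff M b x))) ≠ x) :
    ∃ T : Finset E3, T.card ≤ 2 ^ 3 ∧ K ⊆ ⋃ t ∈ T, (fun x => t + x) '' interior K := by
  let g : E3 →ᵃ[ℝ] E3 :=
    { toFun := aff M b
      linear := Matrix.toEuclideanLin M
      map_vadd' := fun p v => by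
        simp only [aff, vadd_eq_add, Matrix.toLpLin_apply]
        rw [WithLp.ofLp_add, Matrix.mulVec_add, WithLp.toLp_add]
        abel }
  have hgf : ∀ x, g x = aff M b x := fun x => rfl
  have hdet : LinearMap.det g.linear = M.det := by
    change LinearMap.det (Matrix.toLin (PiLp.basisFun 2 ℝ (Fin 3)) (PiLp.basisFun 2 ℝ (Fin 3)) M) =
      M.det
    rw [LinearMap.det_toLin]
  refine Pool.Agent.W867.Cov3.cov_affine' (by simp) hK hc hint g hg ?_
  rw [hdet]
  exact h

end Pool.Agent.Results.MP_eba1ef_gt.RotationOrderThree
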