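import Pool.Agent.W677.Lin7

set_option autoImplicit false

/-!
# MP_eba1ef_gt: `2 ^ d` up to a factor `O(d)` for centrally symmetric convex bodies

Every centrally symmetric convex body `K` in `ℝ^d`, `d ≥ 1`, is covered by at most `33 d 2^d`
translates of its interior, in fact of the smaller homothetic copy `(1 - 1 / (50 d)) K`. The bound
of Rogers (and of Rogers and Zong) is `2^d (d log d + d log log d + 5 d)`; the factor `log d` is
removed.

The proof. Let `K = -K`. A uniform random translate `x + (1 - δ) K`, `x ∈ K`, `δ = 1 / (25 d)`,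
covers the point `p` of `K` with probability at least `24/25 · 2^(-d) λ(p)`, where
`λ(p) = 2^d |K ∩ (p + K)| / |K| ≥ 1`. With `N` translates the expected volume of the uncovered part
of `K` is at most the integral over `K` of `exp (- (24/25) N 2^(-d) λ(p))`, and it suffices that this
is smaller than `(δ / 4)^d |K|`. If only `λ ≥ 1` is used one needs `N` of the order `2^d d log d`. But
for `τ < 1 / 2` the set `M` of all `p` in `K` with `|K ∩ (p + K)| ≤ ((1 + τ) / 2)^d |K|` has volume at
most `(C τ)^d |K|`, `C = (64 e)^5`, so that the points with `λ(p) ≤ τ d` are rare, and `N = 33 d 2^d`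
suffices. The bound for `|M|` is proved as follows.

1. By the Brunn-Minkowski inequality `|K ∩ (2 z + K)| ≤ (2 τ)^d |K|` if `p ∈ M`, `z = (1 - τ) p`.
2. The polar body of the symmetric body `A = (K - z) ∩ (K + z)` is large by the inequality of
  Bourgain and Milman, and it is contained in the difference body of `L`, the polar body of `K - z`.
  So `|L| ≥ 4^(-d) |A°|`, and by the inequality of Santalo `D_p = τ L`, the set of all `n` such that
  `⟨n, x⟩ ≤ τ + (1 - τ) ⟨n, p⟩` for all `x ∈ K`, has volume at least `(64 e)^(-d) |K°|`.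
3. So there is a point `p` of `M` such that the mean of `|D_p ∩ D_q|` over `q ∈ M` is at least
  `(64 e)^(-2 d) |K°|`.
4. If `n` belongs to `D_p ∩ D_q`, then `|⟨m, p - q⟩| ≤ 4 τ` for all `m` in the symmetric body
  `B_n = (D_p - n) ∩ (n - D_p)`. So by the inequality of Santalo the volume of the set of these `q` is
  at most `(4 τ)^d (2 π e / d)^d / |B_n|`. Integrate over `n`, and use that the integral of `|B_n|`
  over a convex subset `X` of `D_p` is at least `2^(-d) |X|²`.
-/

namespace Pool.Agent.Results.MP_eba1ef_gt.SymmetricLinearFactor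

open scoped Pointwise
open Pool.Agent.W677.Lin Pool.Agent.H845R2

/-- The Euclidean space `ℝ^d`. -/
abbrev Eu (d : ℕ) : Type := EuclideanSpace ℝ (Fin d)

/-- `K` is a convex body: convex, compact, with nonempty interior. -/
def IsConvexBody {d : ℕ} (K : Set (Eu d)) : Prop :=
  Convex ℝ K ∧ IsCompact K ∧ (interior K).Nonempty

/-- `K` has a centre of symmetry. -/
def IsCentrallySymmetric {d : ℕ} (K : Set (Eu d)) : Prop :=
  ∃ c : Eu d, ∀ x ∈ K, (2 : ℝ) • c - x ∈ K

/-- `K` is covered by at most `N` translates of its interior. -/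
def CoveredBy {d : ℕ} (K : Set (Eu d)) (N : ℕ) : Prop :=
  ∃ T : Finset (Eu d), T.card ≤ N ∧ K ⊆ ⋃ t ∈ T, (fun x => t + x) '' interior K

/-- `K` is covered by at most `N` translates of `ρ K`. -/
def CoveredByCopies {d : ℕ} (K : Set (Eu d)) (ρ : ℝ) (N : ℕ) : Prop :=
  ∃ T : Finset (Eu d), T.card ≤ N ∧ K ⊆ ⋃ t ∈ T, (fun x => t + ρ • x) '' K

/-- **Main theorem.** A centrally symmetric convex body `K` in `ℝ^d`, `d ≥ 1`, is covered by at most
`33 d 2^d` translates of its interior, and also by as many translates of `(1 - 1 / (50 d)) K`. -/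
theorem result (d : ℕ) (hd : 1 ≤ d) (K : Set (Eu d)) (hK : IsConvexBody K)
    (hsym : IsCentrallySymmetric K) :
    CoveredBy K (33 * d * 2 ^ d) ∧ CoveredByCopies K (1 - 1 / (50 * d)) (33 * d * 2 ^ d) := by
  classical
  obtain ⟨c, hc⟩ := hsym
  obtain ⟨h1, h2, h3⟩ := hK
  have hdR : (1 : ℝ) ≤ d := by exact_mod_cast hd
  set ρ : ℝ := 1 - 1 / (50 * d) with hρ
  have hρ1 : 1 / (50 * (d : ℝ)) < 1 := by rw [div_lt_one (by positivity)]; linarith
  have hρ2 : 0 < 1 / (50 * (d : ℝ)) := by positivity
  have hρ0 : 0 < ρ := by rw [hρ]; linarith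
  have hρl : ρ < 1 := by rw [hρ]; linarith
  -- the translate with centre `0`
  let K₀ : Set (Eu d) := (fun x => c + x) ⁻¹' K
  have hmem : ∀ x, x ∈ K₀ ↔ c + x ∈ K := fun x => Iff.rfl
  let φ : Eu d ≃ₜ Eu d := Homeomorph.addLeft c
  have hint : ∀ x, x ∈ interior K₀ ↔ c + x ∈ interior K := by
    intro x
    have : interior K₀ = φ ⁻¹' (interior K) := (φ.preimage_interior K).symm
    rw [this]
    rfl
  have hSB : SB K₀ := by
    refine ⟨?_, ?_, ?_, ?_⟩
    · exact φ.isCompact_preimage.2 h2
    · exact h1.translate_preimage_right c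
    · intro x hx
      have h4 := hc (c + x) hx
      have e : (2 : ℝ) • c - (c + x) = c + -x := by rw [two_smul]; abel
      rw [e] at h4
      exact h4
    · obtain ⟨x, hx⟩ := h3
      refine ⟨x - c, ?_⟩
      rw [hint]
      simpa using hx
  obtain ⟨T, hT1, _, hT3⟩ := main (d := d) (K := K₀) (by omega) hSB
  have hscale : ∀ x ∈ K₀, ρ • x ∈ interior K₀ := by
    intro x hx
    have h0 := SB.zero_int hSB
    have := hSB.conv.combo_interior_self_mem_interior h0 hx (show 0 < 1 - ρ by linarith) hρ0.le
      (by ring)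
    simpa using this
  refine ⟨⟨T, hT1, ?_⟩, ⟨T.image (fun t => t + (1 - ρ) • c), Finset.card_image_le.trans hT1, ?_⟩⟩
  · intro q hq
    obtain ⟨x, hx, y, hy, hxy⟩ := hT3 (q - c) (by rw [hmem]; simpa using hq)
    rw [Set.mem_iUnion₂]
    refine ⟨x, hx, c + ρ • y, ?_, ?_⟩
    · rw [← hint]
      exact hscale y hy
    · have hxy' : ρ • y = q - c - x := hxy
      show x + (c + ρ • y) = q
      rw [hxy']
      abel
  · intro q hq
    obtain ⟨x, hx, y, hy, hxy⟩ := hT3 (q - c) (by rw [hmem]; simpa using hq)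
    rw [Set.mem_iUnion₂]
    refine ⟨x + (1 - ρ) • c, Finset.mem_image_of_mem _ hx, c + y, hy, ?_⟩
    have hxy' : ρ • y = q - c - x := hxy
    show x + (1 - ρ) • c + ρ • (c + y) = q
    rw [smul_add, hxy', sub_smul, one_smul]
    abel

end Pool.Agent.Results.MP_eba1ef_gt.SymmetricLinearFactor
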